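import Mathlib
import Pool.Agent.H302.RA.Limit

/-!
# Finite aperiodic semigroups embed in locally finite regular aperiodic semigroups

MP_9ca27c_lc asks whether `K(A)` is decidable for all the Birkhoff operators `K`, `A` the class of the
finite regular aperiodic semigroups.  Among the classes `K(A)` is `S(A)`: the finite semigroups which
embed in a finite regular aperiodic semigroup.

Here: a finite semigroup embeds in a locally finite regular aperiodic semigroup if and only if it is
aperiodic (so the locally finite form of `S(A)` is decidable); and each finite aperiodic semigroup `S`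
embeds in a finite aperiodic semigroup in which all the elements of `S` are regular, a step which can be
repeated.

Proof.  For a finite aperiodic monoid `M` and `a` in `M` let `F` be the monoid generated by `M` and `n`
with the relation `a n a = a`, and `T` the syntactic quotient of `F` (the largest one in which the elements
of `M` stay different from each other and from all the other elements).  `T` is finite: the elements of `F`
are read by a machine with a stack, each run which waits before a pop loses in the order of the right
ideals, so there are only finitely many behaviours.  `T` is aperiodic: a word is conjugate to a cyclically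
reduced word `s_1 n ... s_k n`, and then all the `s_i` lie in `aM` (the word acts as an element of `M` or
kills), or the square of the word kills, or all the `s_i` lie in `Ma` and outside `aM` (the stack is
periodic, and each behaviour is finally constant by induction).
-/

namespace Pool.Agent.Results.MP_9ca27c_lc.RegularLocallyFinite

/-- every subgroup is trivial: an element `x` with an inverse `y` relative to an idempotent `e`
is equal to `e` -/
def Aperiodic (S : Type) [Semigroup S] : Prop :=
  ∀ e x y : S, e * e = e → e * x = x → x * e = x → e * y = y → y * e = y →
    x * y = e → y * x = e → x = e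

/-- every element has a weak inverse -/
def Regular (S : Type) [Semigroup S] : Prop := ∀ a : S, ∃ x : S, a * x * a = a

/-- every finite set of elements lies in a finite subsemigroup -/
def LocallyFinite (S : Type) [Semigroup S] : Prop :=
  ∀ F : Set S, F.Finite → ∃ H : Subsemigroup S, F ⊆ H ∧ (H : Set S).Finite

theorem result (S : Type) [Semigroup S] [Finite S] :
    (Aperiodic S ↔ ∃ (T : Type) (_ : Semigroup T) (f : S →ₙ* T), Function.Injective f ∧
      Regular T ∧ Aperiodic T ∧ LocallyFinite T ∧ Countable T) ∧
    (Aperiodic S ↔ ∃ (T : Type) (_ : Semigroup T) (f : S →ₙ* T), Function.Injective f ∧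
      (∀ a : S, ∃ x : T, f a * x * f a = f a) ∧ Aperiodic T ∧ Finite T) := by
  have back : ∀ (T : Type) (_ : Semigroup T) (f : S →ₙ* T), Function.Injective f →
      Aperiodic T → Aperiodic S := by
    intro T _ f hf hT e x y h1 h2 h3 h4 h5 h6 h7
    apply hf
    apply hT (f e) (f x) (f y) <;> rw [← map_mul]
    · rw [h1]
    · rw [h2]
    · rw [h3]
    · rw [h4]
    · rw [h5]
    · rw [h6]
    · rw [h7]
  refine ⟨⟨?_, ?_⟩, ⟨?_, ?_⟩⟩
  · intro hS
    let A : H302.RA.FA := ⟨S, hS⟩
    refine ⟨H302.RA.Lim A, inferInstance,
      ⟨fun x => ⟦⟨0, x⟩⟧, fun x y => (H302.RA.lim_mul A 0 x y).symm⟩,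
      H302.RA.lim_mk_inj A 0, H302.RA.lim_regular A, H302.RA.lim_aper A,
      H302.RA.lim_locfin A, H302.RA.lim_countable A⟩
  · rintro ⟨T, i, f, h1, _, h2, _, _⟩
    exact back T i f h1 h2
  · intro hS
    obtain ⟨B, f, h1, h2⟩ := H302.RA.all_step ⟨S, hS⟩
    exact ⟨B.T, inferInstance, f, h1, h2, B.ap, B.fin⟩
  · rintro ⟨T, i, f, h1, _, h2, _⟩
    exact back T i f h1 h2

end Pool.Agent.Results.MP_9ca27c_lc.RegularLocallyFinite
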